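import Pool.Agent.Lib.MP_e25dcb_al.Group16

/-!
# Q2 of MP_e25dcb_al is false: standard subgroups need not be closed under bounded joins

There is an even meet involution system `(W, S)` with `|W| = 16` and two generators `s, t ∈ S`
which have a join in the right weak order of `(W, S)` (in particular they are bounded), such that
this join does not lie in the subgroup `W_I` generated by `I = {s, t}`.
-/

namespace Pool.Agent.Results.MP_e25dcb_al.JoinsNotClosed

open Pool.Agent.Lib.MP_e25dcb_al

theorem result :
    ∃ (W : Type) (_ : Group W) (S : Set W), Nat.card W = 16 ∧ IsEMIS S ∧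
      ∃ s ∈ S, ∃ t ∈ S, ∃ j : W, IsJoin S {s, t} j ∧ j ∉ Subgroup.closure {s, t} := by
  refine ⟨G16, inferInstance, G16.S, ?_, G16.isEMIS, G16.s, Or.inl rfl,
    G16.t, Or.inr (Or.inr (Or.inl rfl)), G16.s * G16.t', ⟨?_, ?_⟩, ?_⟩
  · rw [Nat.card_eq_fintype_card]
    rfl
  · rintro x (rfl | rfl)
    · rw [G16.weakLE_iff_bitLE]
      decide
    · rw [G16.weakLE_iff_bitLE]
      decide
  · intro w hw
    have h1 := hw _ (Or.inl rfl)
    have h2 := hw _ (Or.inr rfl)
    rw [G16.weakLE_iff_bitLE] at h1 h2 ⊢
    revert w
    have key : ∀ w : G16, G16.BitLE G16.s w → G16.BitLE G16.t w →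
        G16.BitLE (G16.s * G16.t') w := by decide
    intro w _ h1 h2
    exact key w h1 h2
  · intro h
    have := G16.closure_le_H h
    rw [G16.mem_H] at this
    revert this
    decide

end Pool.Agent.Results.MP_e25dcb_al.JoinsNotClosed
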