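import Pool.Agent.Lib.MP_e25dcb_al.Group16

/-!
# Q1 of MP_e25dcb_al is false: standard subgroups need not be closed under meets

There is an even meet involution system `(W, S)` with `|W| = 16`, a subset `I ⊆ S` and two
elements `u, v` of the standard subgroup `W_I` whose meet in the right weak order of `(W, S)`
does not lie in `W_I`.
-/

namespace Pool.Agent.Results.MP_e25dcb_al.MeetsNotClosed

open Pool.Agent.Lib.MP_e25dcb_al

theorem result :
    ∃ (W : Type) (_ : Group W) (S : Set W), Nat.card W = 16 ∧ IsEMIS S ∧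
      ∃ I : Set W, I ⊆ S ∧
        ∃ u ∈ Subgroup.closure I, ∃ v ∈ Subgroup.closure I,
          ∃ m : W, IsMeet S {u, v} m ∧ m ∉ Subgroup.closure I := by
  refine ⟨G16, inferInstance, G16.S, ?_, G16.isEMIS, {G16.s, G16.t}, ?_,
    G16.s * G16.t, ?_, G16.t * G16.s * G16.t, ?_, G16.t', ⟨?_, ?_⟩, ?_⟩
  · rw [Nat.card_eq_fintype_card]
    rfl
  · rintro x (rfl | rfl)
    · exact Or.inl rfl
    · exact Or.inr (Or.inr (Or.inl rfl))
  · exact mul_mem (Subgroup.subset_closure (Or.inl rfl)) (Subgroup.subset_closure (Or.inr rfl))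
  · exact mul_mem (mul_mem (Subgroup.subset_closure (Or.inr rfl))
      (Subgroup.subset_closure (Or.inl rfl))) (Subgroup.subset_closure (Or.inr rfl))
  · rintro x (rfl | rfl)
    · rw [G16.weakLE_iff_bitLE]
      decide
    · rw [G16.weakLE_iff_bitLE]
      decide
  · intro w hw
    have h1 := hw _ (Or.inl rfl)
    have h2 := hw _ (Or.inr rfl)
    rw [G16.weakLE_iff_bitLE] at h1 h2 ⊢
    revert w
    have key : ∀ w : G16, G16.BitLE w (G16.s * G16.t) → G16.BitLE w (G16.t * G16.s * G16.t) →
        G16.BitLE w G16.t' := by decide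
    intro w _ h1 h2
    exact key w h1 h2
  · intro h
    have := G16.closure_le_H h
    rw [G16.mem_H] at this
    revert this
    decide

end Pool.Agent.Results.MP_e25dcb_al.MeetsNotClosed
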